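import Pool.Agent.J6H36.BSV.Defs

/-!
# Module AUT of project BSV: periodic automorphisms of algebraically closed fields
-/

set_option autoImplicit false

universe u w

open Cardinal MvPolynomial

namespace Pool.Agent.J6H81.BSV

open Pool.Agent.J6H36.BSV

/-- composition of an algebraically independent family with an invertible substitution -/
lemma ai_subst {k Ω : Type u} [Field k] [Field Ω] [Algebra k Ω] {ι : Type u} {x : ι → Ω}
    (hx : AlgebraicIndependent k x) (f g : ι → MvPolynomial ι k)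
    (hfg : ∀ i, bind₁ g (f i) = X i) : AlgebraicIndependent k fun i => aeval x (f i) := by
  rw [algebraicIndependent_iff_injective_aeval] at hx ⊢
  have h1 : (aeval fun i => aeval x (f i) : MvPolynomial ι k →ₐ[k] Ω) =
      (aeval x).comp (bind₁ f) := by
    ext i
    simp
  rw [h1]
  have h2 : Function.LeftInverse (bind₁ g) (bind₁ f) := by
    intro p
    have h3 : (bind₁ g).comp (bind₁ f) = AlgHom.id k (MvPolynomial ι k) := by
      ext i : 1
      simp [hfg]
    exact DFunLike.congr_fun h3 p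
  exact hx.comp h2.injective

lemma ai_fin {k Ω : Type u} [Field k] [Field Ω] [Algebra k Ω] {a s : Ω}
    (h : AlgebraicIndependent k ![a, s]) : AlgebraicIndependent k ![a - s, s] := by
  rw [algebraicIndependent_iff_injective_aeval] at h ⊢
  set f : Fin 2 → MvPolynomial (Fin 2) k := ![X 0 - X 1, X 1] with hf
  set g : Fin 2 → MvPolynomial (Fin 2) k := ![X 0 + X 1, X 1] with hg
  have h1 : (aeval ![a - s, s] : MvPolynomial (Fin 2) k →ₐ[k] Ω) =
      (aeval ![a, s]).comp (bind₁ f) := by
    ext i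
    fin_cases i <;> simp [hf]
  rw [h1]
  have h2 : Function.LeftInverse (bind₁ g) (bind₁ f) := by
    intro p
    have h3 : (bind₁ g).comp (bind₁ f) = AlgHom.id k (MvPolynomial (Fin 2) k) := by
      ext i : 1
      fin_cases i <;> simp [hf, hg]
    exact DFunLike.congr_fun h3 p
  exact h.comp h2.injective

/-- an endomorphism which multiplies one element of a transcendence basis by a constant -/
lemma exists_scale {k Ω : Type u} [Field k] [Field Ω] [Algebra k Ω] [IsAlgClosed Ω] {B : Set Ω}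
    (hB : IsTranscendenceBasis k ((↑) : B → Ω)) (s : Ω) (hs : s ∈ B) {ζ : k} (hζ : ζ ≠ 0) :
    ∃ σ : Ω →ₐ[k] Ω, σ s = algebraMap k Ω ζ * s ∧ ∀ x ∈ B, x ≠ s → σ x = x := by
  classical
  set c : B → k := fun x => if (x : Ω) = s then ζ else 1 with hc
  have hc0 : ∀ x, c x ≠ 0 := by
    intro x
    simp only [hc]
    split_ifs
    · exact hζ
    · exact one_ne_zero
  have hu := ai_subst hB.1 (fun x => C (c x) * X x) (fun x => C (c x)⁻¹ * X x) (by
    intro x
    rw [map_mul, bind₁_C_right, bind₁_X_right, ← mul_assoc, ← map_mul, mul_inv_cancel₀ (hc0 x),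
      map_one, one_mul])
  have halg := hB.isAlgebraic_field
  set F := IntermediateField.adjoin k (Set.range ((↑) : B → Ω)) with hF
  set φ : F →ₐ[k] Ω := (IntermediateField.val _).comp
    (hu.aevalEquivField.toAlgHom.comp hB.1.aevalEquivField.symm.toAlgHom) with hφ
  have hφx : ∀ x : B, ∀ hx : (x : Ω) ∈ F, φ ⟨x, hx⟩ = algebraMap k Ω (c x) * x := by
    intro x hx
    have h1 : hB.1.aevalEquivField.symm ⟨x, hx⟩ =
        algebraMap (MvPolynomial B k) (FractionRing (MvPolynomial B k)) (X x) := by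
      rw [AlgEquiv.symm_apply_eq]
      apply Subtype.ext
      rw [hB.1.aevalEquivField_algebraMap_apply_coe, aeval_X]
    show ((hu.aevalEquivField (hB.1.aevalEquivField.symm ⟨x, hx⟩) : _) : Ω) = _
    rw [h1, hu.aevalEquivField_algebraMap_apply_coe, aeval_X, map_mul, aeval_X]
    congr 1
    exact aeval_C _ _
  obtain ⟨σ, hσ⟩ := IsAlgClosed.surjective_domRestrict_of_isAlgebraic (K := k) (L := F) (M := Ω)
    (E := Ω) φ
  have hσx : ∀ x ∈ B, σ x = algebraMap k Ω (if x = s then ζ else 1) * x := by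
    intro x hx
    have hxF : x ∈ F := IntermediateField.subset_adjoin _ _ ⟨⟨x, hx⟩, rfl⟩
    have h1 := hφx ⟨x, hx⟩ hxF
    rw [← hσ] at h1
    exact h1
  refine ⟨σ, ?_, fun x hx hne => ?_⟩
  · rw [hσx s hs, if_pos rfl]
  · rw [hσx x hx, if_neg hne, map_one, one_mul]

/-- an endomorphism which fixes a transcendence basis is periodic at every element -/
lemma periodic_of_fix {k Ω : Type u} [Field k] [Field Ω] [Algebra k Ω] {B : Set Ω}
    (hB : IsTranscendenceBasis k ((↑) : B → Ω)) (τ : Ω →ₐ[k] Ω) (hτ : ∀ x ∈ B, τ x = x) (x : Ω) :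
    ∃ M : ℕ, 0 < M ∧ (τ ^ M) x = x := by
  classical
  have halg := hB.isAlgebraic_field
  set F := IntermediateField.adjoin k (Set.range ((↑) : B → Ω)) with hF
  have hfix : ∀ y ∈ F, τ y = y := by
    intro y hy
    induction hy using IntermediateField.adjoin_induction with
    | mem y hy =>
      obtain ⟨b, rfl⟩ := hy
      exact hτ _ b.2
    | algebraMap c => exact τ.commutes c
    | add y z _ _ h1 h2 => rw [map_add, h1, h2]
    | inv y _ h1 => rw [map_inv₀, h1]
    | mul y z _ _ h1 h2 => rw [map_mul, h1, h2]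
  have hfixn : ∀ (n : ℕ), ∀ y ∈ F, (τ ^ n) y = y := by
    intro n
    induction n with
    | zero => intro y _; rfl
    | succ n ih =>
      intro y hy
      rw [pow_succ, AlgHom.mul_apply, hfix y hy, ih y hy]
  have hint : IsIntegral F x := (Algebra.IsAlgebraic.isAlgebraic x).isIntegral
  set p := minpoly F x with hp
  have hp0 : p ≠ 0 := minpoly.ne_zero hint
  have hroot : ∀ n : ℕ, (τ ^ n) x ∈ p.rootSet Ω := by
    intro n
    rw [Polynomial.mem_rootSet]
    refine ⟨hp0, ?_⟩
    set T : Ω →ₐ[F] Ω := { (τ ^ n : Ω →ₐ[k] Ω) with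
      commutes' := fun c => hfixn n _ c.2 } with hT
    have h1 : Polynomial.aeval (T x) p = T (Polynomial.aeval x p) := Polynomial.aeval_algHom_apply T x p
    have h2 : T x = (τ ^ n) x := rfl
    rw [← h2, h1, minpoly.aeval, map_zero]
  have hfin : (p.rootSet Ω).Finite := Polynomial.rootSet_finite p Ω
  obtain ⟨i, j, hij, h⟩ : ∃ i j : ℕ, i < j ∧ (τ ^ i) x = (τ ^ j) x := by
    have : Finite (p.rootSet Ω) := hfin
    obtain ⟨i, j, hne, h⟩ := Finite.exists_ne_map_eq_of_infinite
      (fun n : ℕ => (⟨(τ ^ n) x, hroot n⟩ : p.rootSet Ω))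
    have h' : (τ ^ i) x = (τ ^ j) x := congrArg Subtype.val h
    rcases lt_or_gt_of_ne hne with h1 | h1
    · exact ⟨i, j, h1, h'⟩
    · exact ⟨j, i, h1, h'.symm⟩
  refine ⟨j - i, by omega, ?_⟩
  have h1 : (τ ^ i) ((τ ^ (j - i)) x) = (τ ^ i) x := by
    rw [← AlgHom.mul_apply, ← pow_add, h]
    congr 2
    omega
  exact (τ ^ i).injective h1

theorem t_AUT : S_AUT.{u} := by
  intro k Ω _ _ _ _ _ a s has ζ m hm hζm
  have hζ : ζ ≠ 0 := by
    rintro rfl
    rw [zero_pow hm.ne'] at hζm
    exact zero_ne_one hζm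
  have hbs := ai_fin has
  have hne : a - s ≠ s := by
    have h := hbs.injective
    intro h'
    have h1 : (![a - s, s] : Fin 2 → Ω) 0 = ![a - s, s] 1 := h'
    exact absurd (h h1) (by decide)
  obtain ⟨B, hB1, hB⟩ := exists_isTranscendenceBasis_superset (R := k)
    (s := Set.range ![a - s, s]) hbs.coe_range
  have hsB : s ∈ B := hB1 ⟨1, rfl⟩
  have hbB : a - s ∈ B := hB1 ⟨0, rfl⟩
  obtain ⟨σ, hσs, hσB⟩ := exists_scale hB s hsB hζ
  have hσb : σ (a - s) = a - s := hσB _ hbB hne
  have hpb : ∀ j : ℕ, (σ ^ j) (a - s) = a - s := by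
    intro j
    induction j with
    | zero => rfl
    | succ j ih => rw [pow_succ, AlgHom.mul_apply, hσb, ih]
  have hps : ∀ j : ℕ, (σ ^ j) s = algebraMap k Ω (ζ ^ j) * s := by
    intro j
    induction j with
    | zero => simp
    | succ j ih =>
      rw [pow_succ, AlgHom.mul_apply, hσs, map_mul, AlgHom.commutes, ih, pow_succ ζ j, map_mul]
      ring
  have hpB : ∀ j : ℕ, ∀ x ∈ B, x ≠ s → (σ ^ j) x = x := by
    intro j x hx hne
    induction j with
    | zero => rfl
    | succ j ih => rw [pow_succ, AlgHom.mul_apply, hσB x hx hne, ih]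
  refine ⟨σ, fun j => ?_, fun x => ?_⟩
  · calc (σ ^ j) a = (σ ^ j) ((a - s) + s) := by rw [sub_add_cancel]
      _ = _ := by rw [map_add, hpb, hps]
  · obtain ⟨M, hM, h⟩ := periodic_of_fix hB (σ ^ m) (fun x hx => by
      by_cases h : x = s
      · subst h
        rw [hps, hζm, map_one, one_mul]
      · exact hpB m x hx h) x
    exact ⟨m * M, Nat.mul_pos hm hM, by rw [pow_mul]; exact h⟩

end Pool.Agent.J6H81.BSV
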